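import Mathlib
import Pool.Agent.Helper72.RainbowThreshold

/-!
The rainbow-cycle threshold `g(n)` (for odd `n`) satisfies `g(n) ≤ 91 n^(3/2)`; in particular it
is subquadratic.

Sketch. Put `N = n - 2`. If there is no rainbow `n`-cycle there is no rainbow cycle of length
`k N + 2`, `k ≥ 1`. Take a rainbow `m`-cycle `v_0, ..., v_{m-1}` with `m` coprime to `N` and
`m ≥ C N^(3/2)`. Every chord joining vertices at distance `k N + 1` has the colour of one of the
`k N + 1` edges it spans; a crossing argument shows that (up to reversing the cycle) this edge is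
always within `N` steps of the head of the chord, at a place which depends only on the head.
If this place is far from the head for many heads, then one can build a rainbow cycle of length
`2` modulo `N` that goes once around; otherwise one builds one that goes around several times.
Finally the missing lengths minus two form an additive semigroup, and every residue modulo the odd
number `N` is a sum of two units.
-/

namespace Pool.Agent.Results.MP_e07b63_co.Subquadratic

open Pool.Agent.Helper72.Rainbow

/-- Every edge colouring of a finite complete graph (with any number of colours) that contains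
no rainbow `n`-cycle also contains no rainbow `m`-cycle. -/
def Forces (n m : ℕ) : Prop :=
  ∀ (N : ℕ) (C : Type) (c : Sym2 (Fin N) → C), ¬ HasRainbowCycle c n → ¬ HasRainbowCycle c m

theorem exists_threshold (n : ℕ) (hodd : Odd n) (hn : 3 ≤ n) :
    ∃ M : ℕ, (∀ m, M ≤ m → Forces n m) ∧ (M : ℝ) ≤ 91 * (n : ℝ) ^ (3 / 2 : ℝ) := by
  have hnR : (3 : ℝ) ≤ n := by exact_mod_cast hn
  have h32 : (n : ℝ) ^ (3 / 2 : ℝ) = n * Real.sqrt n := by
    rw [Real.sqrt_eq_rpow, show (3 / 2 : ℝ) = 1 + 1 / 2 by norm_num,
      Real.rpow_add (by linarith), Real.rpow_one]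
  have hs1 : (1 : ℝ) ≤ Real.sqrt n := by
    rw [Real.one_le_sqrt]; linarith
  rw [h32]
  obtain ⟨N, rfl⟩ : ∃ N, n = N + 2 := ⟨n - 2, by omega⟩
  have hoddN : Odd N := by
    rcases hodd with ⟨k, hk⟩
    exact ⟨k - 1, by omega⟩
  rcases Nat.lt_or_ge N 3 with h3 | h3
  · have hN1 : N = 1 := by
      rcases hoddN with ⟨k, hk⟩
      omega
    subst hN1
    refine ⟨3, ?_, ?_⟩
    · intro m hm N' C c h
      have := miss_mul (c := c) (N := 1) le_rfl h (m - 2) (by omega)
      have e : (m - 2) * 1 + 2 = m := by omega
      rwa [e] at this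
    · nlinarith
  · refine ⟨40 * ((Nat.sqrt N + 1) * N) + 11 * N, ?_, ?_⟩
    · intro m hm N' C c h
      exact no_rainbow_large hoddN h3 h (by omega) (Nat.lt_succ_sqrt N).le hm
    · have h1 : (Nat.sqrt N : ℝ) ≤ Real.sqrt ((N + 2 : ℕ) : ℝ) := by
        refine le_trans Real.nat_sqrt_le_real_sqrt ?_
        exact Real.sqrt_le_sqrt (by push_cast; linarith)
      have h2 : (N : ℝ) ≤ ((N + 2 : ℕ) : ℝ) := by push_cast; linarith
      have h4 : (0 : ℝ) ≤ N := by positivity
      push_cast at *
      set x := Real.sqrt ((N : ℝ) + 2) with hx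
      have h5 : ((Nat.sqrt N : ℝ) + 1) * N ≤ (x + 1) * (N + 2) :=
        mul_le_mul (by linarith) h2 h4 (by linarith)
      have h6 : (N : ℝ) + 2 ≤ (N + 2) * x := by nlinarith
      nlinarith

/-- For every odd `n ≥ 3` the threshold `g(n)`, the least `M` such that for all `m ≥ M` every
colouring without rainbow `n`-cycle has no rainbow `m`-cycle, exists and is at most
`91 n^(3/2)`. -/
theorem result (n : ℕ) (hodd : Odd n) (hn : 3 ≤ n) :
    ∃ g : ℕ, IsLeast {M : ℕ | ∀ m, M ≤ m → Forces n m} g ∧
      (g : ℝ) ≤ 91 * (n : ℝ) ^ (3 / 2 : ℝ) := by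
  classical
  obtain ⟨M, hM, hM2⟩ := exists_threshold n hodd hn
  have hne : ∃ M : ℕ, ∀ m, M ≤ m → Forces n m := ⟨M, hM⟩
  refine ⟨Nat.find hne, ⟨Nat.find_spec hne, fun k hk => Nat.find_min' hne hk⟩, ?_⟩
  exact le_trans (by exact_mod_cast Nat.find_min' hne hM) hM2

end Pool.Agent.Results.MP_e07b63_co.Subquadratic
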